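import Pool.Agent.H.MP_58ffb3_an.B

set_option autoImplicit false
open Filter Topology MeasureTheory Polynomial Metric

namespace Pool.Agent.Results.MP_58ffb3_an.No

def ONB (ν : Measure ℂ) (k : ℕ) (e : Fin (k + 1) → ℂ[X]) : Prop :=
  (∀ i, (e i).natDegree ≤ k) ∧
  (∀ p : ℂ[X], p.natDegree ≤ k → p ∈ Submodule.span ℂ (Set.range e)) ∧
  ∀ i j, ∫ z, (e i).eval z * starRingEnd ℂ ((e j).eval z) ∂ν = if i = j then 1 else 0

noncomputable def B {k : ℕ} (e : Fin (k + 1) → ℂ[X]) (z : ℂ) : ℝ := ∑ i, ‖(e i).eval z‖ ^ 2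

theorem result : ∃ ν : Measure ℂ, IsFiniteMeasure ν ∧ ν (closedBall 0 1)ᶜ = 0 ∧
    (∀ p : ℂ[X], p ≠ 0 → 0 < ∫ z, ‖p.eval z‖ ^ 2 ∂ν) ∧
    (∀ k, ∃ e, ONB ν k e) ∧
    ∀ e : (k : ℕ) → Fin (k + 1) → ℂ[X], (∀ k, ONB ν k (e k)) →
      (∀ f : ℂ → ℝ, Continuous f →
        Tendsto (fun k : ℕ => (∫ z, f z * B (e k) z ∂ν) / (k + 1)) atTop
          (𝓝 (∫ t in (0 : ℝ)..1, f (Complex.exp (2 * Real.pi * t * Complex.I))))) ∧
      (∀ k : ℕ, 1 ≤ k → 1 ≤ Real.log (B (e k) 0) / (2 * k)) ∧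
      ¬ TendstoLocallyUniformly (fun (k : ℕ) z => Real.log (B (e k) z) / (2 * k))
        (fun z => Real.posLog ‖z‖) atTop := by
  open Pool.Agent.H.MP_58ffb3_an in
  refine ⟨nu, nu_fin, nu_K, fun p hp => Nm_pos hp, onb, fun e he => ?_⟩
  have h2 : ∀ k : ℕ, 1 ≤ k → 1 ≤ Real.log (B (e k) 0) / (2 * k) := by
    intro k hk
    have a := W_est (he k).2.2 (he k).2.1
    have k0 : (0 : ℝ) < k := by exact_mod_cast hk
    rw [one_le_div (by positivity), ← Real.exp_le_exp, Real.exp_log (by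
      have : (0 : ℝ) < 25 ^ k := by positivity
      unfold B; linarith), mul_comm, Real.exp_nat_mul]
    have b : Real.exp 2 ≤ 9 := by
      have := Real.exp_one_lt_d9
      rw [show (2 : ℝ) = 1 + 1 by norm_num, Real.exp_add]
      nlinarith [Real.exp_pos 1]
    have c : Real.exp 2 ^ k ≤ 9 ^ k := by gcongr
    have d : (2 : ℝ) * 9 ^ k ≤ 25 ^ k := by
      have : (2 : ℝ) ≤ 2 ^ k := le_self_pow₀ (by norm_num) (by omega)
      calc (2 : ℝ) * 9 ^ k ≤ 2 ^ k * 9 ^ k := by gcongr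
        _ = 18 ^ k := by rw [← mul_pow]; norm_num
        _ ≤ _ := by gcongr; norm_num
    unfold B; linarith
  refine ⟨fun f hf => ?_, h2, fun h => ?_⟩
  · obtain ⟨M, hM⟩ := (isCompact_closedBall (0 : ℂ) 1).exists_bound_of_continuousOn hf.continuousOn
    have t1 := (equi hf).comp (tendsto_add_atTop_nat 1)
    have t2 : Tendsto (fun k : ℕ => ((∫ z, f z * B (e k) z ∂nu) -
        ∑ j ∈ Finset.range (k + 1), f (x j)) / (k + 1)) atTop (𝓝 0) := by
      refine squeeze_zero_norm (fun k => ?_)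
        ((tendsto_const_div_atTop_nhds_zero_nat (2 * M)).comp (tendsto_add_atTop_nat 1))
      rw [norm_div, Real.norm_of_nonneg (by positivity : (0 : ℝ) ≤ k + 1)]
      simp only [Function.comp]
      push_cast
      gcongr
      exact S_est (he k).2.2 (he k).1 hf fun j => hM _ (by simp [x_norm])
    have := t1.add t2
    rw [add_zero] at this
    refine this.congr fun k => ?_
    simp only [Function.comp]
    push_cast
    ring
  · have := (tendstoLocallyUniformlyOn_univ.2 h).tendsto_at (Set.mem_univ (0 : ℂ))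
    have := ge_of_tendsto this ((eventually_ge_atTop 1).mono h2)
    norm_num at this

end Pool.Agent.Results.MP_58ffb3_an.No
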